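import Pool.Agent.H90.STE.Stmts
import Pool.Agent.H68.STK.SUT

/-!
# Sticky families with random time: the informations of the differences add up (row ST)
-/

set_option autoImplicit false

namespace Pool.STE

open Finset Real
open Pool.Agent.H49.Ent Pool.Agent.H32.Dense Pool.STK Pool.KA

/-- The informations of the differences on the positions add up. -/
theorem st (hMUL : MULStmt) : STStmt := by
  intro m J F k N _
  obtain ⟨hq, -, hm⟩ := hMUL F.Ω (((Fin m → ℤ) × (Fin m → ℤ)) × (ℕ × F.ζ)) N F.p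
    (fun r : Fin N => bT F k r) F.isLaw
  have hq0 : ∀ w, 0 ≤ pT F k N w := hq.nonneg
  set A : ℕ → F.Ω × (Fin N → F.Ω) → (Fin m → ℤ) × (ℕ × F.ζ) :=
    fun r w => (F.X (r * k) w.1, F.W w.1) with hA
  have hAdet : ∀ r, Det (pT F k N) (A (r + 1)) (A r) := by
    intro r ω ω' _ _ h
    simp only [hA, Prod.mk.injEq] at h ⊢
    exact ⟨SUT.fl_det (Nat.mul_le_mul_right k (Nat.le_succ r)) h.1, h.2⟩
  have hstep : ∀ r : Fin N, tT F k r ≤
      CH (pT F k N) (yT F k N) (A r) - CH (pT F k N) (yT F k N) (A ((r : ℕ) + 1)) := by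
    intro r
    have h1 : CH (dbl F.p (bT F k r)) (zT F k (((r : ℕ) + 1) * k))
        (fun w => (F.X ((r : ℕ) * k) w.1, F.W w.1)) =
        CH (pT F k N) (fun w => yT F k N w r) (A r) :=
      ((hm r).CH (zT F k (((r : ℕ) + 1) * k))
        (fun w => (F.X ((r : ℕ) * k) w.1, F.W w.1))).symm
    have h2 : CH (dbl F.p (bT F k r)) (zT F k (((r : ℕ) + 1) * k))
        (fun w => (F.X (((r : ℕ) + 1) * k) w.1, F.W w.1)) =
        CH (pT F k N) (fun w => yT F k N w r) (A ((r : ℕ) + 1)) :=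
      ((hm r).CH (zT F k (((r : ℕ) + 1) * k))
        (fun w => (F.X (((r : ℕ) + 1) * k) w.1, F.W w.1))).symm
    unfold tT
    rw [h1, h2]
    exact SUT.info_le hq0 (fun ω ω' _ _ h => congrFun h r) (hAdet r)
  have hsum : ∑ r ∈ Finset.range N, tT F k r ≤
      ∑ r ∈ Finset.range N, (CH (pT F k N) (yT F k N) (A r) -
        CH (pT F k N) (yT F k N) (A (r + 1))) :=
    Finset.sum_le_sum fun r hr => hstep ⟨r, Finset.mem_range.mp hr⟩
  have htel := Finset.sum_range_sub' (fun r => CH (pT F k N) (yT F k N) (A r)) N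
  have hfst : CH (pT F k N) (yT F k N) (A 0) ≤
      CH (pT F k N) (yT F k N) (fun w => F.W w.1) :=
    CH_mono_cond hq0 (fun ω ω' _ _ h => (Prod.ext_iff.mp h).2)
  have hlst : CH (pT F k N) (yT F k N) (fun w => w.1) ≤
      CH (pT F k N) (yT F k N) (A N) := by
    refine CH_mono_cond hq0 (fun ω ω' _ _ h => ?_)
    simp only [hA] at h ⊢
    rw [h]
  unfold jT
  linarith

end Pool.STE
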